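import Pool.Agent.P8H92.KB.Stm2

/-!
# Project KB, second part: lemmas for TRN
-/

set_option autoImplicit false

open Real MeasureTheory

namespace Pool.Agent.P8H65.KC

open Pool.Agent.P8H92.KB

lemma sum_fib {α U : Type} [MeasurableSpace α] [Fintype U] (P : Measure α) [IsFiniteMeasure P]
    (D : Set α) (Qm : α → U) (hQ : ∀ u, MeasurableSet (Qm ⁻¹' {u})) :
    ∑ u, P.real (D ∩ Qm ⁻¹' {u}) = P.real D := by
  have h := sum_measureReal_preimage_singleton (μ := P.restrict D) Finset.univ (f := Qm)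
    (fun u _ => hQ u)
  rw [Finset.coe_univ, Set.preimage_univ, measureReal_restrict_apply_univ] at h
  rw [← h]
  refine Finset.sum_congr rfl (fun u _ => ?_)
  rw [measureReal_restrict_apply (hQ u), Set.inter_comm]

lemma int_fib {α U : Type} [MeasurableSpace α] [Fintype U] (P : Measure α) [IsFiniteMeasure P]
    (Qm : α → U) (hQ : ∀ u, MeasurableSet (Qm ⁻¹' {u})) (g : U → ℝ) :
    Integrable (fun y => g (Qm y)) P ∧ ∫ y, g (Qm y) ∂P = ∑ u, P.real (Qm ⁻¹' {u}) * g u := by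
  classical
  have e : (fun y => g (Qm y)) = fun y => ∑ u, (Qm ⁻¹' {u}).indicator (fun _ => g u) y := by
    funext y
    rw [Finset.sum_eq_single (Qm y)]
    · rw [Set.indicator_of_mem (by rfl)]
    · intro u _ hu
      rw [Set.indicator_of_notMem]
      intro h
      exact hu (Eq.symm h)
    · intro h
      exact absurd (Finset.mem_univ _) h
  have hi : ∀ u, Integrable ((Qm ⁻¹' {u}).indicator (fun _ => g u)) P := fun u =>
    (integrable_const (g u)).indicator (hQ u)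
  rw [e]
  refine ⟨integrable_finsetSum _ (fun u _ => hi u), ?_⟩
  rw [integral_finsetSum _ (fun u _ => hi u)]
  refine Finset.sum_congr rfl (fun u _ => ?_)
  rw [integral_indicator_const _ (hQ u), smul_eq_mul]

/-- the second moment of the quantisation -/
lemma mom_fib {k : ℕ} {A : Type} [Fintype A] (μ : Measure (EuclideanSpace ℝ (Fin k)))
    [IsProbabilityMeasure μ] (R η : ℝ) (hR : ∀ᵐ y ∂μ, ‖y‖ ^ 2 ≤ R)
    (x : A → EuclideanSpace ℝ (Fin k)) (q : EuclideanSpace ℝ (Fin k) → A)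
    (hq : ∀ a, MeasurableSet (q ⁻¹' {a})) (hx : ∀ a, ‖x a‖ ^ 2 ≤ R)
    (hη : ∀ᵐ y ∂μ, ‖y - x (q y)‖ ≤ η) :
    |∑ a, μ.real (q ⁻¹' {a}) * ‖x a‖ ^ 2 - ∫ y, ‖y‖ ^ 2 ∂μ| ≤ 2 * (√R * η) := by
  obtain ⟨h1, h2⟩ := int_fib μ q hq (fun a => ‖x a‖ ^ 2)
  have h3 : Integrable (fun y : EuclideanSpace ℝ (Fin k) => ‖y‖ ^ 2) μ := by
    refine Integrable.of_bound (by fun_prop) R ?_
    filter_upwards [hR] with y hy
    rw [Real.norm_eq_abs, abs_of_nonneg (sq_nonneg _)]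
    exact hy
  rw [← h2, ← integral_sub h1 h3, ← Real.norm_eq_abs]
  refine (norm_integral_le_of_norm_le_const (C := 2 * (√R * η)) ?_).trans (by simp)
  filter_upwards [hR, hη] with y hy hyη
  have n1 : ‖y‖ ≤ √R := Real.le_sqrt_of_sq_le hy
  have n2 : ‖x (q y)‖ ≤ √R := Real.le_sqrt_of_sq_le (hx _)
  have n3 : |‖y‖ - ‖x (q y)‖| ≤ η := (abs_norm_sub_norm_le _ _).trans hyη
  have n4 : ‖x (q y)‖ ^ 2 - ‖y‖ ^ 2 = -((‖y‖ - ‖x (q y)‖) * (‖y‖ + ‖x (q y)‖)) := by ring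
  rw [n4, norm_neg, Real.norm_eq_abs, abs_mul]
  have n5 : |‖y‖ + ‖x (q y)‖| ≤ 2 * √R := by
    rw [abs_of_nonneg (by positivity)]
    linarith
  calc |‖y‖ - ‖x (q y)‖| * |‖y‖ + ‖x (q y)‖| ≤ η * (2 * √R) :=
        mul_le_mul n3 n5 (abs_nonneg _) ((abs_nonneg _).trans n3)
    _ = 2 * (√R * η) := by ring

/-- the sum over pairs of fibres is a measure in the product -/
lemma pairs {α U : Type} [MeasurableSpace α] [Fintype U] (P : Measure α) [IsProbabilityMeasure P]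
    (D : Set α) (hD : MeasurableSet D) (Qm : α → U) (hQ : ∀ u, MeasurableSet (Qm ⁻¹' {u}))
    (c : U → U → Prop) [∀ u w, Decidable (c u w)] :
    ∑ u, ∑ w, (if c u w then P.real (D ∩ Qm ⁻¹' {u}) * P.real (D ∩ Qm ⁻¹' {w}) else 0) ≤
      (P.prod P).real {p | p.1 ∈ D ∧ p.2 ∈ D ∧ c (Qm p.1) (Qm p.2)} := by
  classical
  have e1 : ∑ u, ∑ w, (if c u w then P.real (D ∩ Qm ⁻¹' {u}) * P.real (D ∩ Qm ⁻¹' {w}) else 0) =
      ∑ p ∈ (Finset.univ : Finset (U × U)).filter (fun p => c p.1 p.2),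
        (P.prod P).real ((D ∩ Qm ⁻¹' {p.1}) ×ˢ (D ∩ Qm ⁻¹' {p.2})) := by
    rw [Finset.sum_filter, Fintype.sum_prod_type]
    refine Finset.sum_congr rfl (fun u _ => Finset.sum_congr rfl (fun w _ => ?_))
    by_cases h : c u w
    · rw [if_pos h, if_pos h, measureReal_prod_prod]
    · rw [if_neg h, if_neg h]
  rw [e1, ← measureReal_biUnion_finset]
  · refine measureReal_mono ?_ (measure_ne_top _ _)
    intro p hp
    simp only [Set.mem_iUnion, exists_prop, Finset.mem_filter, Finset.mem_univ, true_and] at hp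
    obtain ⟨v, hv, h1, h2⟩ := hp
    have h3 : Qm p.1 = v.1 := h1.2
    have h4 : Qm p.2 = v.2 := h2.2
    refine ⟨h1.1, h2.1, ?_⟩
    rw [h3, h4]
    exact hv
  · intro v _ w _ hvw
    refine Set.disjoint_left.2 (fun p hp hp' => hvw ?_)
    have h1 : Qm p.1 = v.1 := hp.1.2
    have h2 : Qm p.2 = v.2 := hp.2.2
    have h3 : Qm p.1 = w.1 := hp'.1.2
    have h4 : Qm p.2 = w.2 := hp'.2.2
    exact Prod.ext (h1.symm.trans h3) (h2.symm.trans h4)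
  · intro v _
    exact (hD.inter (hQ _)).prod (hD.inter (hQ _))

lemma inner_close {k : ℕ} (y z a b : EuclideanSpace ℝ (Fin k)) (R η : ℝ)
    (hz : ‖z‖ ^ 2 ≤ R) (ha : ‖a‖ ^ 2 ≤ R)
    (h1 : ‖y - a‖ ≤ η) (h2 : ‖z - b‖ ≤ η) :
    inner ℝ a b ≤ inner ℝ y z + 2 * (√R * η) := by
  have n1 : ‖z‖ ≤ √R := Real.le_sqrt_of_sq_le hz
  have n2 : ‖a‖ ≤ √R := Real.le_sqrt_of_sq_le ha
  have e : inner ℝ a b = inner ℝ y z - inner ℝ (y - a) z - inner ℝ a (z - b) := by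
    rw [inner_sub_left, inner_sub_right]
    ring
  have h3 : |inner ℝ (y - a) z| ≤ η * √R := (abs_real_inner_le_norm _ _).trans
    (mul_le_mul h1 n1 (norm_nonneg _) ((norm_nonneg _).trans h1))
  have h4 : |inner ℝ a (z - b)| ≤ √R * η := (abs_real_inner_le_norm _ _).trans
    (mul_le_mul n2 h2 (norm_nonneg _) (Real.sqrt_nonneg _))
  have h5 := (abs_le.1 h3).1
  have h6 := (abs_le.1 h4).1
  rw [e]
  nlinarith

lemma norm_close {k : ℕ} (y a : EuclideanSpace ℝ (Fin k)) (R η : ℝ)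
    (hy : ‖y‖ ^ 2 ≤ R) (ha : ‖a‖ ^ 2 ≤ R) (h1 : ‖y - a‖ ≤ η) :
    ‖y‖ ^ 2 ≤ ‖a‖ ^ 2 + 2 * (√R * η) := by
  have n1 : ‖y‖ ≤ √R := Real.le_sqrt_of_sq_le hy
  have n2 : ‖a‖ ≤ √R := Real.le_sqrt_of_sq_le ha
  have n3 : ‖y‖ - ‖a‖ ≤ η := (norm_sub_norm_le _ _).trans h1
  have h0 : 0 ≤ η := (norm_nonneg _).trans h1
  have n4 : (‖y‖ - ‖a‖) * (‖y‖ + ‖a‖) ≤ η * (2 * √R) := by
    have h5 : 0 ≤ ‖y‖ + ‖a‖ := by positivity
    have h6 : ‖y‖ + ‖a‖ ≤ 2 * √R := by linarith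
    calc (‖y‖ - ‖a‖) * (‖y‖ + ‖a‖) ≤ η * (‖y‖ + ‖a‖) := mul_le_mul_of_nonneg_right n3 h5
      _ ≤ η * (2 * √R) := mul_le_mul_of_nonneg_left h6 h0
  nlinarith

/-- from the quantised words to the words -/
lemma small_of {ι : Type} [Fintype ι] {k : ι → ℕ} (θ : ℝ) (h0 : 0 ≤ Real.cos θ)
    (R : ι → ℝ) (η : ℝ) (y z a b : ∀ i, EuclideanSpace ℝ (Fin (k i)))
    (hy : ∀ i, ‖y i‖ ^ 2 ≤ R i) (hz : ∀ i, ‖z i‖ ^ 2 ≤ R i) (ha : ∀ i, ‖a i‖ ^ 2 ≤ R i)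
    (hb : ∀ i, ‖b i‖ ^ 2 ≤ R i) (h1 : ∀ i, ‖y i - a i‖ ≤ η) (h2 : ∀ i, ‖z i - b i‖ ≤ η)
    (h : 4 * (η * ∑ i, √(R i)) <
      ∑ i, (inner ℝ (a i) (b i) - Real.cos θ * (‖a i‖ ^ 2 + ‖b i‖ ^ 2) / 2)) :
    SmallAng θ y z := by
  have hη : ∀ i : ι, 0 ≤ η := fun i => (norm_nonneg _).trans (h1 i)
  have key : ∀ i, inner ℝ (a i) (b i) - Real.cos θ * (‖a i‖ ^ 2 + ‖b i‖ ^ 2) / 2 ≤
      inner ℝ (y i) (z i) - Real.cos θ * (‖y i‖ ^ 2 + ‖z i‖ ^ 2) / 2 + 4 * (η * √(R i)) := by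
    intro i
    have e1 := inner_close (y i) (z i) (a i) (b i) (R i) η (hz i) (ha i) (h1 i) (h2 i)
    have e2 := norm_close (y i) (a i) (R i) η (hy i) (ha i) (h1 i)
    have e3 := norm_close (z i) (b i) (R i) η (hz i) (hb i) (h2 i)
    have e4 : 0 ≤ √(R i) * η := mul_nonneg (Real.sqrt_nonneg _) (hη i)
    have e5 : Real.cos θ * (‖y i‖ ^ 2 + ‖z i‖ ^ 2) ≤
        Real.cos θ * (‖a i‖ ^ 2 + ‖b i‖ ^ 2) + 4 * (√(R i) * η) := by
      have e6 : Real.cos θ * (‖y i‖ ^ 2 + ‖z i‖ ^ 2) ≤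
          Real.cos θ * (‖a i‖ ^ 2 + ‖b i‖ ^ 2 + 4 * (√(R i) * η)) :=
        mul_le_mul_of_nonneg_left (by linarith) h0
      have e7 : Real.cos θ * (4 * (√(R i) * η)) ≤ 1 * (4 * (√(R i) * η)) :=
        mul_le_mul_of_nonneg_right (Real.cos_le_one θ) (by linarith)
      linarith
    linarith
  have h3 : ∑ i, (inner ℝ (a i) (b i) - Real.cos θ * (‖a i‖ ^ 2 + ‖b i‖ ^ 2) / 2) ≤
      ∑ i, (inner ℝ (y i) (z i) - Real.cos θ * (‖y i‖ ^ 2 + ‖z i‖ ^ 2) / 2 + 4 * (η * √(R i))) :=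
    Finset.sum_le_sum (fun i _ => key i)
  have h4 : ∑ i, (inner ℝ (y i) (z i) - Real.cos θ * (‖y i‖ ^ 2 + ‖z i‖ ^ 2) / 2 +
      4 * (η * √(R i))) = ∑ i, inner ℝ (y i) (z i) -
      Real.cos θ * ((∑ i, ‖y i‖ ^ 2) + ∑ i, ‖z i‖ ^ 2) / 2 + 4 * (η * ∑ i, √(R i)) := by
    rw [Finset.sum_add_distrib, Finset.sum_sub_distrib, ← Finset.sum_div, ← Finset.mul_sum,
      Finset.sum_add_distrib, ← Finset.mul_sum, ← Finset.mul_sum]
  rw [h4] at h3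
  unfold SmallAng
  obtain ⟨s, hs⟩ : ∃ s, s = √(∑ i, ‖y i‖ ^ 2) := ⟨_, rfl⟩
  obtain ⟨t, ht⟩ : ∃ t, t = √(∑ i, ‖z i‖ ^ 2) := ⟨_, rfl⟩
  have hs2 : s ^ 2 = ∑ i, ‖y i‖ ^ 2 := by
    rw [hs, Real.sq_sqrt (Finset.sum_nonneg (fun i _ => sq_nonneg _))]
  have ht2 : t ^ 2 = ∑ i, ‖z i‖ ^ 2 := by
    rw [ht, Real.sq_sqrt (Finset.sum_nonneg (fun i _ => sq_nonneg _))]
  rw [← hs, ← ht]
  rw [← hs2, ← ht2] at h3
  have h5 : Real.cos θ * (s * t) ≤ Real.cos θ * (s ^ 2 + t ^ 2) / 2 := by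
    have : s * t ≤ (s ^ 2 + t ^ 2) / 2 := by nlinarith [sq_nonneg (s - t)]
    have := mul_le_mul_of_nonneg_left this h0
    linarith
  linarith

end Pool.Agent.P8H65.KC
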