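import Pool.Agent.P8H92.KB.Stm2

/-!
# Project KB, second part: package BND (the density of the coupling is bounded)
-/

set_option autoImplicit false

open Real MeasureTheory

namespace Pool.Agent.P8H65.KC

open Pool.Agent.P8H92.KB

lemma abs_inner_le {k : ℕ} (x y : EuclideanSpace ℝ (Fin k)) (R : ℝ) (hx : ‖x‖ ^ 2 ≤ R)
    (hy : ‖y‖ ^ 2 ≤ R) : |inner ℝ x y| ≤ R := by
  refine (abs_real_inner_le_norm x y).trans ?_
  nlinarith [sq_nonneg (‖x‖ - ‖y‖)]

/-- **BND.** -/
theorem bnd : S_BND := by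
  intro k A _ x ν l R f hν hsum hl hx hm a b
  have hne : Nonempty A := ⟨a⟩
  obtain ⟨G, hG⟩ : ∃ G : ℝ, G = ∑ b, ν b * rexp (f b) := ⟨_, rfl⟩
  have hG0 : 0 < G := by
    rw [hG]
    exact Finset.sum_pos (fun b _ => mul_pos (hν b) (exp_pos _)) Finset.univ_nonempty
  have hin : ∀ a b : A, |inner ℝ (x a) (x b)| ≤ R := fun a b => abs_inner_le _ _ R (hx a) (hx b)
  have hli : ∀ a b : A, |l * inner ℝ (x a) (x b)| ≤ l * R := by
    intro a b
    rw [abs_mul, abs_of_nonneg hl]
    exact mul_le_mul_of_nonneg_left (hin a b) hl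
  -- the marginal condition
  have h1 : ∀ a : A, rexp (f a) * ∑ b, ν b * rexp (f b) * rexp (l * inner ℝ (x a) (x b)) = 1 := by
    intro a
    have h := hm a
    have e : ∑ b, cpl x ν l f a b =
        ν a * (rexp (f a) * ∑ b, ν b * rexp (f b) * rexp (l * inner ℝ (x a) (x b))) := by
      rw [Finset.mul_sum, Finset.mul_sum]
      refine Finset.sum_congr rfl (fun b _ => ?_)
      unfold cpl
      rw [exp_add, exp_add]
      ring
    rw [e] at h
    have h2 := (hν a).ne'
    field_simp at h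
    linarith
  have hup : ∀ a : A, rexp (f a) * G ≤ rexp (l * R) := by
    intro a
    have h2 : G ≤ rexp (l * R) * ∑ b, ν b * rexp (f b) * rexp (l * inner ℝ (x a) (x b)) := by
      rw [hG, Finset.mul_sum]
      refine Finset.sum_le_sum (fun b _ => ?_)
      have h3 : 1 ≤ rexp (l * R) * rexp (l * inner ℝ (x a) (x b)) := by
        rw [← exp_add]
        exact one_le_exp (by linarith [(abs_le.1 (hli a b)).1])
      have h4 : 0 < ν b * rexp (f b) := mul_pos (hν b) (exp_pos _)
      nlinarith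
    calc rexp (f a) * G ≤ rexp (f a) * (rexp (l * R) *
          ∑ b, ν b * rexp (f b) * rexp (l * inner ℝ (x a) (x b))) :=
          mul_le_mul_of_nonneg_left h2 (exp_pos _).le
      _ = rexp (l * R) * (rexp (f a) *
          ∑ b, ν b * rexp (f b) * rexp (l * inner ℝ (x a) (x b))) := by ring
      _ = rexp (l * R) := by rw [h1, mul_one]
  have hlow : ∀ a : A, rexp (-(l * R)) ≤ rexp (f a) * G := by
    intro a
    have h2 : rexp (-(l * R)) * ∑ b, ν b * rexp (f b) * rexp (l * inner ℝ (x a) (x b)) ≤ G := by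
      rw [hG, Finset.mul_sum]
      refine Finset.sum_le_sum (fun b _ => ?_)
      have h3 : rexp (-(l * R)) * rexp (l * inner ℝ (x a) (x b)) ≤ 1 := by
        rw [← exp_add]
        exact exp_le_one_iff.2 (by linarith [(abs_le.1 (hli a b)).2])
      have h4 : 0 < ν b * rexp (f b) := mul_pos (hν b) (exp_pos _)
      nlinarith
    calc rexp (-(l * R)) = rexp (-(l * R)) * (rexp (f a) *
          ∑ b, ν b * rexp (f b) * rexp (l * inner ℝ (x a) (x b))) := by rw [h1, mul_one]
      _ = rexp (f a) * (rexp (-(l * R)) *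
          ∑ b, ν b * rexp (f b) * rexp (l * inner ℝ (x a) (x b))) := by ring
      _ ≤ rexp (f a) * G := mul_le_mul_of_nonneg_left h2 (exp_pos _).le
  have hGG : ∑ a, ν a * (rexp (f a) * G) = G * G := by
    have e : ∑ a, ν a * (rexp (f a) * G) = (∑ a, ν a * rexp (f a)) * G := by
      rw [Finset.sum_mul]
      exact Finset.sum_congr rfl (fun a _ => by ring)
    rw [e, ← hG]
  have g1 : G * G ≤ rexp (l * R) := by
    rw [← hGG]
    calc ∑ a, ν a * (rexp (f a) * G) ≤ ∑ a, ν a * rexp (l * R) :=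
          Finset.sum_le_sum (fun a _ => mul_le_mul_of_nonneg_left (hup a) (hν a).le)
      _ = rexp (l * R) := by rw [← Finset.sum_mul, hsum, one_mul]
  have g2 : rexp (-(l * R)) ≤ G * G := by
    rw [← hGG]
    calc rexp (-(l * R)) = ∑ a, ν a * rexp (-(l * R)) := by rw [← Finset.sum_mul, hsum, one_mul]
      _ ≤ ∑ a, ν a * (rexp (f a) * G) :=
          Finset.sum_le_sum (fun a _ => mul_le_mul_of_nonneg_left (hlow a) (hν a).le)
  obtain ⟨g, hg⟩ : ∃ g : ℝ, rexp g = G := ⟨Real.log G, exp_log hG0⟩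
  rw [← hg, ← exp_add, exp_le_exp] at g1 g2
  have u1 : ∀ a : A, f a + g ≤ l * R := by
    intro a
    have := hup a
    rwa [← hg, ← exp_add, exp_le_exp] at this
  have u2 : ∀ a : A, -(l * R) ≤ f a + g := by
    intro a
    have := hlow a
    rwa [← hg, ← exp_add, exp_le_exp] at this
  have h5 := abs_le.1 (hli a b)
  have a1 := u1 a
  have a2 := u2 a
  have b1 := u1 b
  have b2 := u2 b
  rw [abs_le]
  constructor <;> linarith [h5.1, h5.2]

end Pool.Agent.P8H65.KC
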