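import Pool.Agent.P8H92.KB.Stm2

/-!
# Project KB, second part: package QUA (quantisation of a bounded law)
-/

set_option autoImplicit false

open Real MeasureTheory

namespace Pool.Agent.P8H65.KC

open Pool.Agent.P8H92.KB

/-- **QUA.** -/
theorem qua : S_QUA := by
  classical
  intro k μ _ R η hR hη
  have hR0 : 0 ≤ R := by
    obtain ⟨y, hy⟩ := hR.exists
    exact (sq_nonneg _).trans hy
  have hball : ∀ y : EuclideanSpace ℝ (Fin k), ‖y‖ ^ 2 ≤ R ↔ y ∈ Metric.closedBall (0 : EuclideanSpace ℝ (Fin k)) √R := by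
    intro y
    rw [mem_closedBall_zero_iff]
    exact (Real.le_sqrt (norm_nonneg y) hR0).symm
  obtain ⟨t, ht1, ht2, ht3⟩ :=
    (isCompact_closedBall (0 : EuclideanSpace ℝ (Fin k)) √R).finite_cover_balls hη
  obtain ⟨c, hc⟩ : ∃ c : List (EuclideanSpace ℝ (Fin k)), c = ht2.toFinset.toList := ⟨_, rfl⟩
  obtain ⟨e, he⟩ : ∃ e : ℕ → EuclideanSpace ℝ (Fin k), e = fun n => c.getD n 0 := ⟨_, rfl⟩
  have heb : ∀ n, ‖e n‖ ^ 2 ≤ R := by
    intro n
    rw [hball, he]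
    by_cases hn : n < c.length
    · have h1 : c.getD n 0 ∈ c := by
        rw [List.getD_eq_getElem _ _ hn]
        exact List.getElem_mem hn
      rw [hc, Finset.mem_toList, Set.Finite.mem_toFinset] at h1
      rw [← hc] at h1
      exact ht1 h1
    · show c.getD n 0 ∈ _
      rw [List.getD_eq_default _ _ (not_lt.1 hn)]
      simp
  have hcov : ∀ y : EuclideanSpace ℝ (Fin k), ‖y‖ ^ 2 ≤ R → ∃ n, n ≤ c.length ∧ dist (e n) y < η := by
    intro y hy
    have h1 := ht3 ((hball y).1 hy)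
    simp only [Set.mem_iUnion, Metric.mem_ball, exists_prop] at h1
    obtain ⟨z, hz, hyz⟩ := h1
    have h2 : z ∈ c := by
      rw [hc, Finset.mem_toList, Set.Finite.mem_toFinset]
      exact hz
    obtain ⟨n, hn, hnz⟩ := List.mem_iff_getElem.1 h2
    refine ⟨n, hn.le, ?_⟩
    rw [he]
    show dist (c.getD n 0) y < η
    rw [List.getD_eq_getElem _ _ hn, hnz, dist_comm]
    exact hyz
  obtain ⟨q₁, hq₁⟩ : ∃ q₁, q₁ = SimpleFunc.nearestPtInd e c.length := ⟨_, rfl⟩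
  have hq1 : ∀ y : EuclideanSpace ℝ (Fin k), ‖y‖ ^ 2 ≤ R → dist (e (q₁ y)) y ≤ η := by
    intro y hy
    obtain ⟨n, hn, hd⟩ := hcov y hy
    have h1 := SimpleFunc.edist_nearestPt_le e y hn
    have h2 : SimpleFunc.nearestPt e c.length y = e (q₁ y) := by
      rw [hq₁]
      rfl
    rw [h2, edist_dist, edist_dist, ENNReal.ofReal_le_ofReal_iff dist_nonneg] at h1
    exact h1.trans hd.le
  obtain ⟨S, hS⟩ : ∃ S : Finset ℕ, S = q₁.range.filter (fun n => 0 < μ.real (q₁ ⁻¹' {n})) := ⟨_, rfl⟩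
  have hSm : ∀ n, n ∈ S ↔ n ∈ q₁.range ∧ 0 < μ.real (q₁ ⁻¹' {n}) := by
    intro n
    rw [hS, Finset.mem_filter]
  have hae : ∀ᵐ y ∂μ, q₁ y ∈ S := by
    have h1 : ∀ n ∈ q₁.range, n ∉ S → ∀ᵐ y ∂μ, q₁ y ≠ n := by
      intro n hn hnS
      have h2 : μ.real (q₁ ⁻¹' {n}) = 0 := by
        by_contra h3
        exact hnS ((hSm n).2 ⟨hn, lt_of_le_of_ne measureReal_nonneg (Ne.symm h3)⟩)
      have h4 : μ (q₁ ⁻¹' {n}) = 0 := by
        rw [measureReal_def, ENNReal.toReal_eq_zero_iff] at h2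
        exact h2.resolve_right (measure_ne_top _ _)
      have h5 : ∀ᵐ y ∂μ, y ∉ (q₁ ⁻¹' {n}) := measure_eq_zero_iff_ae_notMem.1 h4
      filter_upwards [h5] with y hy h6
      exact hy h6
    have h2 : ∀ᵐ y ∂μ, ∀ n ∈ q₁.range, n ∉ S → q₁ y ≠ n := by
      rw [Filter.eventually_all_finset]
      intro n hn
      by_cases hnS : n ∈ S
      · exact Filter.Eventually.of_forall (fun y h => absurd hnS h)
      · filter_upwards [h1 n hn hnS] with y hy _
        exact hy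
    filter_upwards [h2] with y hy
    by_contra h3
    exact hy (q₁ y) (SimpleFunc.mem_range_self q₁ y) h3 rfl
  obtain ⟨y₀, hy₀⟩ := hae.exists
  obtain ⟨g, hg⟩ : ∃ g : ℕ → {n // n ∈ S}, g = fun n => if h : n ∈ S then ⟨n, h⟩ else ⟨q₁ y₀, hy₀⟩ :=
    ⟨_, rfl⟩
  have hg1 : ∀ n (h : n ∈ S), g n = ⟨n, h⟩ := by
    intro n h
    rw [hg]
    simp [h]
  refine ⟨{n // n ∈ S}, inferInstance, fun a => e a.1, fun y => g (q₁ y), ?_, ?_, ?_, ?_⟩
  · intro a
    have h1 : (fun y => g (q₁ y)) ⁻¹' {a} = q₁ ⁻¹' (g ⁻¹' {a}) := rfl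
    rw [h1]
    exact q₁.measurableSet_preimage _
  · intro a
    refine lt_of_lt_of_le ((hSm a.1).1 a.2).2 ?_
    refine measureReal_mono ?_ (measure_ne_top _ _)
    intro y hy
    have h1 : q₁ y = a.1 := hy
    show g (q₁ y) = a
    rw [h1, hg1 a.1 a.2]
  · intro a
    exact heb a.1
  · filter_upwards [hR, hae] with y hy hyS
    rw [hg1 _ hyS, ← dist_eq_norm, dist_comm]
    exact hq1 y hy

end Pool.Agent.P8H65.KC
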