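import Pool.Agent.P8H65.KC.Aux1

/-!
# Project KB, second part: package TRN (from finite laws to all laws)
-/

set_option autoImplicit false

open Real MeasureTheory

namespace Pool.Agent.P8H65.KC

open Pool.Agent.P8H92.KB

/-- **TRN.** -/
theorem trn (hd : S_DIS) (hq : S_QUA) : S_FIN := by
  classical
  intro θ δ hθ hθ2 hδ
  obtain ⟨ρ, ε, hρ, hε, hmain⟩ := hd θ δ hθ hθ2 hδ
  refine ⟨ρ / 4, by positivity, ?_⟩
  intro ι _ k μ _ R hR hv hRv D hD hPD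
  have hR0 : ∀ i, 0 ≤ R i := fun i => by
    obtain ⟨y, hy⟩ := (hR i).exists
    exact (sq_nonneg _).trans hy
  have hcos : 0 ≤ Real.cos θ :=
    Real.cos_nonneg_of_mem_Icc ⟨by linarith [pi_pos], hθ2.le⟩
  obtain ⟨v, hvd⟩ : ∃ v, v = ∑ i, ∫ y, ‖y‖ ^ 2 ∂(μ i) := ⟨_, rfl⟩
  rw [← hvd] at hv hRv hPD
  obtain ⟨S, hS⟩ : ∃ S, S = ∑ i, √(R i) := ⟨_, rfl⟩
  have hS0 : 0 ≤ S := by
    rw [hS]
    exact Finset.sum_nonneg (fun i _ => Real.sqrt_nonneg _)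
  have hm0 : 0 < min ε 1 := lt_min hε one_pos
  obtain ⟨η, hη⟩ : ∃ η, η = min ε 1 * v / (16 * (1 + S)) := ⟨_, rfl⟩
  have hη0 : 0 < η := by
    rw [hη]
    positivity
  have hη1 : 16 * (η * (1 + S)) = min ε 1 * v := by
    rw [hη]
    field_simp
  have hηS : 16 * (η * S) ≤ min ε 1 * v := by
    have := mul_pos hη0 one_pos
    nlinarith
  have hηε : 16 * (η * S) ≤ ε * v :=
    hηS.trans (mul_le_mul_of_nonneg_right (min_le_left _ _) hv.le)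
  have hηv : 16 * (η * S) ≤ v := by
    refine hηS.trans ?_
    have := mul_le_mul_of_nonneg_right (min_le_right ε 1) hv.le
    linarith
  choose A fA x q q1 q2 q3 q4 using fun i => hq (k i) (μ i) (R i) η (hR i) hη0
  obtain ⟨ν, hν⟩ : ∃ ν : ∀ i, A i → ℝ, ν = fun i a => (μ i).real (q i ⁻¹' {a}) := ⟨_, rfl⟩
  have hνp : ∀ i a, 0 < ν i a := by
    rw [hν]
    exact q2
  have hν1 : ∀ i, ∑ a, ν i a = 1 := by
    intro i
    have h := sum_fib (μ i) Set.univ (q i) (q1 i)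
    simp only [Set.univ_inter, probReal_univ] at h
    rw [hν]
    exact h
  have hvv : |vB x ν - v| ≤ 2 * (η * S) := by
    have e : vB x ν - v = ∑ i, (∑ a, (μ i).real (q i ⁻¹' {a}) * ‖x i a‖ ^ 2 -
        ∫ y, ‖y‖ ^ 2 ∂(μ i)) := by
      rw [Finset.sum_sub_distrib, hvd, hν]
      rfl
    rw [e]
    refine (Finset.abs_sum_le_sum_abs _ _).trans ?_
    rw [hS, Finset.mul_sum, Finset.mul_sum]
    refine Finset.sum_le_sum (fun i _ => ?_)
    refine (mom_fib (μ i) (R i) η (hR i) (x i) (q i) (q1 i) (q3 i) (q4 i)).trans (le_of_eq ?_)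
    ring
  have hv1 : v / 2 ≤ vB x ν := by
    have := (abs_le.1 hvv).1
    linarith
  have hv0 : 0 < vB x ν := by linarith
  obtain ⟨P, hP⟩ : ∃ P, P = Measure.pi μ := ⟨_, rfl⟩
  have iP : IsProbabilityMeasure P := by
    rw [hP]
    infer_instance
  obtain ⟨Qm, hQm⟩ : ∃ Qm : (∀ i, EuclideanSpace ℝ (Fin (k i))) → (∀ i, A i),
      Qm = fun y i => q i (y i) := ⟨_, rfl⟩
  have hpre : ∀ u, Qm ⁻¹' {u} = Set.univ.pi (fun i => q i ⁻¹' {u i}) := by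
    intro u
    ext y
    simp only [Set.mem_preimage, Set.mem_singleton_iff, Set.mem_pi, Set.mem_univ, true_imp_iff]
    rw [hQm]
    exact funext_iff
  have hQ : ∀ u, MeasurableSet (Qm ⁻¹' {u}) := by
    intro u
    rw [hpre]
    exact MeasurableSet.univ_pi (fun i => q1 i (u i))
  have hPQ : ∀ u, P.real (Qm ⁻¹' {u}) = ∏ i, ν i (u i) := by
    intro u
    rw [hpre, hP, hν, measureReal_def, Measure.pi_pi, ENNReal.toReal_prod]
    rfl
  have hPQ0 : ∀ u : ∀ i, A i, 0 < ∏ i, ν i (u i) := fun u =>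
    Finset.prod_pos (fun i _ => hνp i (u i))
  obtain ⟨d, hdd⟩ : ∃ d : (∀ i, A i) → ℝ,
      d = fun u => P.real (D ∩ Qm ⁻¹' {u}) / ∏ i, ν i (u i) := ⟨_, rfl⟩
  have hd1 : ∀ u, (∏ i, ν i (u i)) * d u = P.real (D ∩ Qm ⁻¹' {u}) := by
    intro u
    rw [hdd]
    exact mul_div_cancel₀ _ (hPQ0 u).ne'
  have hd0 : ∀ u, 0 ≤ d u := by
    intro u
    rw [hdd]
    exact div_nonneg measureReal_nonneg (hPQ0 u).le
  have hd2 : ∀ u, d u ≤ 1 := by
    intro u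
    rw [hdd]
    show _ / _ ≤ (1 : ℝ)
    rw [div_le_one (hPQ0 u), ← hPQ]
    exact measureReal_mono Set.inter_subset_right (measure_ne_top _ _)
  have hsq : ρ / 4 * v ^ 2 ≤ ρ * vB x ν ^ 2 := by
    have h1 : (v / 2) ^ 2 ≤ vB x ν ^ 2 := by
      refine pow_le_pow_left₀ (by positivity) hv1 2
    nlinarith
  have hRR : 0 ≤ ∑ i, R i ^ 2 := Finset.sum_nonneg (fun i _ => sq_nonneg _)
  have hmass : rexp (-(ρ * (vB x ν ^ 2 / ∑ i, R i ^ 2))) ≤ ∑ u, (∏ i, ν i (u i)) * d u := by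
    have h1 : ∑ u, (∏ i, ν i (u i)) * d u = P.real D := by
      rw [← sum_fib P D Qm hQ]
      exact Finset.sum_congr rfl (fun u _ => hd1 u)
    rw [h1, hP]
    refine le_trans (exp_le_exp.2 ?_) hPD
    rw [neg_le_neg_iff, ← mul_div_assoc, ← mul_div_assoc]
    exact div_le_div_of_nonneg_right hsq hRR
  have h := hmain ι k A x ν R hνp hν1 q3 hv0 (hRv.trans hsq) d hd0 hd2 hmass
  refine h.trans ?_
  have e : ∀ u w : (∀ i, A i), (∏ i, ν i (u i)) * (∏ i, ν i (w i)) * (d u * d w) =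
      P.real (D ∩ Qm ⁻¹' {u}) * P.real (D ∩ Qm ⁻¹' {w}) := by
    intro u w
    rw [← hd1 u, ← hd1 w]
    ring
  simp only [e]
  have h2 := pairs P D hD Qm hQ (fun u w => ε * vB x ν < ∑ i, (inner ℝ (x i (u i)) (x i (w i)) -
          Real.cos θ * (‖x i (u i)‖ ^ 2 + ‖x i (w i)‖ ^ 2) / 2))
  refine h2.trans ?_
  rw [← hP]
  have hae1 : ∀ᵐ y ∂P, ∀ i, ‖y i‖ ^ 2 ≤ R i ∧ ‖y i - x i (q i (y i))‖ ≤ η := by
    rw [hP, ae_all_iff]
    intro i
    exact (Measure.tendsto_eval_ae_ae (μ := μ) (i := i)).eventually ((hR i).and (q4 i))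
  have hae : ∀ᵐ p ∂(P.prod P), (∀ i, ‖p.1 i‖ ^ 2 ≤ R i ∧ ‖p.1 i - x i (q i (p.1 i))‖ ≤ η) ∧
      (∀ i, ‖p.2 i‖ ^ 2 ≤ R i ∧ ‖p.2 i - x i (q i (p.2 i))‖ ≤ η) :=
    (Measure.quasiMeasurePreserving_fst.ae hae1).and (Measure.quasiMeasurePreserving_snd.ae hae1)
  refine ENNReal.toReal_mono (measure_ne_top _ _) (measure_mono_ae ?_)
  filter_upwards [hae] with p hp hT
  obtain ⟨t1, t2, t3⟩ := hT
  refine ⟨t1, t2, ?_⟩
  rw [hQm] at t3
  refine small_of θ hcos R η p.1 p.2 (fun i => x i (q i (p.1 i))) (fun i => x i (q i (p.2 i)))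
    (fun i => (hp.1 i).1) (fun i => (hp.2 i).1) (fun i => q3 i _) (fun i => q3 i _)
    (fun i => (hp.1 i).2) (fun i => (hp.2 i).2) (lt_of_lt_of_le' t3 ?_)
  rw [← hS]
  have h5 : ε * (v / 2) ≤ ε * vB x ν := mul_le_mul_of_nonneg_left hv1 hε.le
  have h6 : 0 < ε * v := mul_pos hε hv
  linarith

end Pool.Agent.P8H65.KC
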